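import Pool.Agent.N139.WS.Stm

/-!
# Project WS, leaf NWT: Newton iteration for almost representations of finite groups
-/

set_option autoImplicit false

namespace Pool.Agent.N38.WS

open Filter Topology Pool.Agent.N139.WS

section step

variable {F : Type} [Group F] [Fintype F] {B : Type} [NonUnitalCStarAlgebra B]

/-- the exact properties -/
structure Ex (p : B) (u : F → B) : Prop where
  one : u 1 = p
  left : ∀ a, p * u a = u a
  right : ∀ a, u a * p = u a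
  st : ∀ a, u a⁻¹ = star (u a)

/-- the defect -/
def dd (u : F → B) (a b : F) : B := u (a * b) - u a * u b

/-- the correction -/
noncomputable def ww (u : F → B) (a : F) : B :=
  ((Fintype.card F : ℂ)⁻¹) • ∑ g, u g⁻¹ * dd u g a

theorem norm_avg (f : F → B) (C : ℝ) (h : ∀ g, ‖f g‖ ≤ C) :
    ‖((Fintype.card F : ℂ)⁻¹) • ∑ g, f g‖ ≤ C := by
  have hN : (0 : ℝ) < Fintype.card F := by exact_mod_cast Fintype.card_pos
  rw [norm_smul, norm_inv, Complex.norm_natCast]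
  have h1 : ‖∑ g, f g‖ ≤ Fintype.card F * C := by
    calc ‖∑ g, f g‖ ≤ ∑ g, ‖f g‖ := norm_sum_le _ _
      _ ≤ ∑ _g : F, C := Finset.sum_le_sum fun g _ => h g
      _ = Fintype.card F * C := by simp
  calc ((Fintype.card F : ℝ))⁻¹ * ‖∑ g, f g‖ ≤ ((Fintype.card F : ℝ))⁻¹ * (Fintype.card F * C) := by
        gcongr
    _ = C := by field_simp

theorem avg_const (x : B) : ((Fintype.card F : ℂ)⁻¹) • ∑ _g : F, x = x := by
  have hN : (Fintype.card F : ℂ) ≠ 0 := by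
    have : Fintype.card F ≠ 0 := Fintype.card_ne_zero
    exact_mod_cast this
  rw [Finset.sum_const, Finset.card_univ, ← Nat.cast_smul_eq_nsmul ℂ, smul_smul,
    inv_mul_cancel₀ hN, one_smul]

theorem norm_ww (u : F → B) (M δ : ℝ) (hM : 0 ≤ M) (hu : ∀ a, ‖u a‖ ≤ M)
    (hd : ∀ a b, ‖dd u a b‖ ≤ δ) (a : F) : ‖ww u a‖ ≤ M * δ := by
  apply norm_avg
  intro g
  calc ‖u g⁻¹ * dd u g a‖ ≤ ‖u g⁻¹‖ * ‖dd u g a‖ := norm_mul_le _ _
    _ ≤ M * δ := mul_le_mul (hu _) (hd _ _) (norm_nonneg _) hM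

theorem ww_one {p : B} {u : F → B} (h : Ex p u) : ww u 1 = 0 := by
  unfold ww
  have : ∀ g, dd u g 1 = 0 := by
    intro g
    unfold dd
    rw [mul_one, h.one, h.right, sub_self]
  simp [this]

theorem left_ww {p : B} {u : F → B} (h : Ex p u) (a : F) : p * ww u a = ww u a := by
  unfold ww
  rw [mul_smul_comm, Finset.mul_sum]
  congr 1
  apply Finset.sum_congr rfl
  intro g _
  rw [← mul_assoc, h.left]

theorem right_ww {p : B} {u : F → B} (h : Ex p u) (a : F) : ww u a * p = ww u a := by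
  unfold ww
  rw [smul_mul_assoc, Finset.sum_mul]
  congr 1
  apply Finset.sum_congr rfl
  intro g _
  rw [mul_assoc]
  congr 1
  unfold dd
  rw [sub_mul, h.right, mul_assoc, h.right]

theorem cocycle (u : F → B) (g a b : F) :
    dd u g (a * b) = dd u (g * a) b + dd u g a * u b - u g * dd u a b := by
  unfold dd
  rw [mul_assoc g a b, sub_mul, mul_sub, mul_assoc (u g)]
  abel

/-- the defect of the corrected map -/
theorem defect {p : B} {u : F → B} (h : Ex p u) (a b : F) :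
    (u (a * b) + ww u (a * b)) - (u a + ww u a) * (u b + ww u b) =
      ((Fintype.card F : ℂ)⁻¹) • ∑ g, dd u a g⁻¹ * dd u g b +
      ((Fintype.card F : ℂ)⁻¹) • ∑ g, dd u g⁻¹ g * dd u a b - ww u a * ww u b := by
  have e1 : ww u (a * b) = ((Fintype.card F : ℂ)⁻¹) • ∑ g, u g⁻¹ * dd u (g * a) b +
      ww u a * u b - ((Fintype.card F : ℂ)⁻¹) • ∑ g, u g⁻¹ * (u g * dd u a b) := by
    unfold ww
    rw [smul_mul_assoc, Finset.sum_mul, ← smul_add, ← smul_sub, ← Finset.sum_add_distrib,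
      ← Finset.sum_sub_distrib]
    congr 1
    apply Finset.sum_congr rfl
    intro g _
    rw [cocycle, mul_sub, mul_add, mul_assoc (u g⁻¹)]
  have e2 : ∑ g, u g⁻¹ * dd u (g * a) b = ∑ g, u (a * g⁻¹) * dd u g b := by
    rw [← Equiv.sum_comp (Equiv.mulRight a) (fun g => u (a * g⁻¹) * dd u g b)]
    apply Finset.sum_congr rfl
    intro g _
    simp only [Equiv.coe_mulRight]
    rw [mul_inv_rev, mul_inv_cancel_left]
  have e3 : ∑ g, u (a * g⁻¹) * dd u g b = u a * ∑ g, u g⁻¹ * dd u g b +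
      ∑ g, dd u a g⁻¹ * dd u g b := by
    rw [Finset.mul_sum, ← Finset.sum_add_distrib]
    apply Finset.sum_congr rfl
    intro g _
    have : u (a * g⁻¹) = u a * u g⁻¹ + dd u a g⁻¹ := by
      unfold dd
      abel
    rw [this, add_mul, mul_assoc]
  have e4 : ((Fintype.card F : ℂ)⁻¹) • ∑ g, u g⁻¹ * (u g * dd u a b) =
      dd u a b - ((Fintype.card F : ℂ)⁻¹) • ∑ g, dd u g⁻¹ g * dd u a b := by
    have : ∀ g, u g⁻¹ * (u g * dd u a b) = dd u a b - dd u g⁻¹ g * dd u a b := by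
      intro g
      have h1 : dd u g⁻¹ g = p - u g⁻¹ * u g := by
        unfold dd
        rw [inv_mul_cancel, h.one]
      have h2 : p * dd u a b = dd u a b := by
        unfold dd
        rw [mul_sub, h.left, ← mul_assoc, h.left]
      rw [h1, sub_mul, h2, mul_assoc]
      abel
    rw [Finset.sum_congr rfl (fun g _ => this g), Finset.sum_sub_distrib, smul_sub, avg_const]
  have e5 : ((Fintype.card F : ℂ)⁻¹) • (u a * ∑ g, u g⁻¹ * dd u g b) = u a * ww u b := by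
    unfold ww
    rw [mul_smul_comm]
  rw [e1, e2, e3, e4, smul_add, e5, add_mul, mul_add, mul_add]
  have e6 : u (a * b) = dd u a b + u a * u b := by
    unfold dd
    abel
  rw [e6]
  abel

/-- the symmetrised map -/
noncomputable def u2 (u : F → B) (a : F) : B :=
  ((2 : ℂ)⁻¹) • ((u a + ww u a) + star (u a⁻¹ + ww u a⁻¹))

theorem half_add (x : B) : ((2 : ℂ)⁻¹) • (x + x) = x := by
  rw [← two_smul ℂ x, smul_smul]
  norm_num

theorem ex_u2 {p : B} (hp : IsSelfAdjoint p) {u : F → B} (h : Ex p u) : Ex p (u2 u) := by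
  constructor
  · unfold u2
    rw [inv_one, ww_one h, add_zero, h.one, hp.star_eq, half_add]
  · intro a
    unfold u2
    rw [mul_smul_comm, mul_add, mul_add, h.left, left_ww h]
    congr 2
    have : p * star (u a⁻¹ + ww u a⁻¹) = star ((u a⁻¹ + ww u a⁻¹) * p) := by
      rw [star_mul, hp.star_eq]
    rw [this, add_mul, h.right, right_ww h]
  · intro a
    unfold u2
    rw [smul_mul_assoc, add_mul, add_mul (u a), h.right, right_ww h]
    congr 2
    have : star (u a⁻¹ + ww u a⁻¹) * p = star (p * (u a⁻¹ + ww u a⁻¹)) := by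
      rw [star_mul, hp.star_eq]
    rw [this, mul_add, h.left, left_ww h]
  · intro a
    unfold u2
    rw [inv_inv, star_smul, star_add (u a + ww u a) (star (u a⁻¹ + ww u a⁻¹)), star_star,
      add_comm (star (u a + ww u a))]
    congr 1
    simp

theorem u2_sub {p : B} {u : F → B} (h : Ex p u) (a : F) :
    u2 u a - u a = ((2 : ℂ)⁻¹) • (ww u a + star (ww u a⁻¹)) := by
  unfold u2
  rw [star_add, h.st a, star_star]
  have : (u a + ww u a + (u a + star (ww u a⁻¹))) = (u a + u a) + (ww u a + star (ww u a⁻¹)) := by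
    abel
  rw [this, smul_add, half_add]
  abel

theorem norm_half (x : B) : ‖((2 : ℂ)⁻¹) • x‖ = ‖x‖ / 2 := by
  rw [norm_smul, norm_inv]
  simp
  ring

theorem norm_u2_sub {p : B} {u : F → B} (h : Ex p u) (M δ : ℝ) (hM : 0 ≤ M)
    (hu : ∀ a, ‖u a‖ ≤ M) (hd : ∀ a b, ‖dd u a b‖ ≤ δ) (a : F) : ‖u2 u a - u a‖ ≤ M * δ := by
  rw [u2_sub h, norm_half]
  have h1 := norm_ww u M δ hM hu hd a
  have h2 := norm_ww u M δ hM hu hd a⁻¹
  have h3 := norm_add_le (ww u a) (star (ww u a⁻¹))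
  rw [norm_star] at h3
  linarith

theorem norm_defect {p : B} {u : F → B} (h : Ex p u) (M δ : ℝ) (hM : 0 ≤ M) (hδ : 0 ≤ δ)
    (hu : ∀ a, ‖u a‖ ≤ M) (hd : ∀ a b, ‖dd u a b‖ ≤ δ) (a b : F) :
    ‖(u (a * b) + ww u (a * b)) - (u a + ww u a) * (u b + ww u b)‖ ≤ (2 + M ^ 2) * δ ^ 2 := by
  rw [defect h]
  have h1 : ‖((Fintype.card F : ℂ)⁻¹) • ∑ g, dd u a g⁻¹ * dd u g b‖ ≤ δ * δ := by
    apply norm_avg
    intro g
    exact (norm_mul_le _ _).trans (mul_le_mul (hd _ _) (hd _ _) (norm_nonneg _) hδ)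
  have h2 : ‖((Fintype.card F : ℂ)⁻¹) • ∑ g, dd u g⁻¹ g * dd u a b‖ ≤ δ * δ := by
    apply norm_avg
    intro g
    exact (norm_mul_le _ _).trans (mul_le_mul (hd _ _) (hd _ _) (norm_nonneg _) hδ)
  have h3 : ‖ww u a * ww u b‖ ≤ (M * δ) * (M * δ) :=
    (norm_mul_le _ _).trans (mul_le_mul (norm_ww u M δ hM hu hd a) (norm_ww u M δ hM hu hd b)
      (norm_nonneg _) (by positivity))
  calc _ ≤ ‖((Fintype.card F : ℂ)⁻¹) • ∑ g, dd u a g⁻¹ * dd u g b +
      ((Fintype.card F : ℂ)⁻¹) • ∑ g, dd u g⁻¹ g * dd u a b‖ + ‖ww u a * ww u b‖ := norm_sub_le _ _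
    _ ≤ (‖((Fintype.card F : ℂ)⁻¹) • ∑ g, dd u a g⁻¹ * dd u g b‖ +
      ‖((Fintype.card F : ℂ)⁻¹) • ∑ g, dd u g⁻¹ g * dd u a b‖) + ‖ww u a * ww u b‖ := by
        gcongr
        exact norm_add_le _ _
    _ ≤ (2 + M ^ 2) * δ ^ 2 := by nlinarith

theorem mean_defect (x y xa ya xb yb : B) :
    ((2 : ℂ)⁻¹) • (x + y) - (((2 : ℂ)⁻¹) • (xa + ya)) * (((2 : ℂ)⁻¹) • (xb + yb)) =
      ((2 : ℂ)⁻¹) • ((x - xa * xb) + (y - ya * yb)) +
      ((2 : ℂ)⁻¹) • (((2 : ℂ)⁻¹) • ((xa - ya) * (xb - yb))) := by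
  rw [smul_mul_smul_comm, smul_smul]
  have h2 : (xa * xb + ya * yb) = ((2 : ℂ)⁻¹) • ((xa * xb + ya * yb) + (xa * xb + ya * yb)) :=
    (half_add _).symm
  have h3 : (x - xa * xb) + (y - ya * yb) = (x + y) - (xa * xb + ya * yb) := by abel
  rw [h3, smul_sub, h2, smul_smul]
  have h4 : (xa + ya) * (xb + yb) = xa * xb + xa * yb + ya * xb + ya * yb := by
    rw [add_mul, mul_add, mul_add]; abel
  have h5 : (xa - ya) * (xb - yb) = xa * xb - xa * yb - ya * xb + ya * yb := by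
    rw [sub_mul, mul_sub, mul_sub]; abel
  rw [h4, h5]
  module

theorem defect_u2 {p : B} {u : F → B} (h : Ex p u) (M δ : ℝ) (hM : 0 ≤ M) (hδ : 0 ≤ δ)
    (hu : ∀ a, ‖u a‖ ≤ M) (hd : ∀ a b, ‖dd u a b‖ ≤ δ) (a b : F) :
    ‖dd (u2 u) a b‖ ≤ (2 + 2 * M ^ 2) * δ ^ 2 := by
  unfold dd u2
  rw [mean_defect]
  have h1 := norm_defect h M δ hM hδ hu hd a b
  have h2 : ‖star (u (a * b)⁻¹ + ww u (a * b)⁻¹) -
      star (u a⁻¹ + ww u a⁻¹) * star (u b⁻¹ + ww u b⁻¹)‖ ≤ (2 + M ^ 2) * δ ^ 2 := by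
    rw [← star_mul, ← star_sub, norm_star, mul_inv_rev]
    exact norm_defect h M δ hM hδ hu hd b⁻¹ a⁻¹
  have hx : ∀ c, ‖(u c + ww u c) - star (u c⁻¹ + ww u c⁻¹)‖ ≤ 2 * (M * δ) := by
    intro c
    have e : (u c + ww u c) - star (u c⁻¹ + ww u c⁻¹) = ww u c - star (ww u c⁻¹) := by
      rw [star_add, h.st c, star_star]
      abel
    rw [e]
    have h3 := norm_sub_le (ww u c) (star (ww u c⁻¹))
    rw [norm_star] at h3
    have h4 := norm_ww u M δ hM hu hd c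
    have h5 := norm_ww u M δ hM hu hd c⁻¹
    linarith
  have h3 : ‖((u a + ww u a) - star (u a⁻¹ + ww u a⁻¹)) *
      ((u b + ww u b) - star (u b⁻¹ + ww u b⁻¹))‖ ≤ (2 * (M * δ)) * (2 * (M * δ)) :=
    (norm_mul_le _ _).trans (mul_le_mul (hx a) (hx b) (norm_nonneg _) (by positivity))
  refine (norm_add_le _ _).trans ?_
  rw [norm_half, norm_half, norm_half]
  have h4 := norm_add_le ((u (a * b) + ww u (a * b)) - (u a + ww u a) * (u b + ww u b))
    (star (u (a * b)⁻¹ + ww u (a * b)⁻¹) - star (u a⁻¹ + ww u a⁻¹) * star (u b⁻¹ + ww u b⁻¹))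
  nlinarith

end step

/-- **NWT.** -/
theorem t_NWT : S_NWT := by
  intro F _ _ B _ p u δ hp hpp h1 hl hr hst hn hδ hd
  have : Fintype F := Fintype.ofFinite F
  have hδ0 : 0 ≤ δ := (norm_nonneg _).trans (hd 1 1)
  let Q : ℕ → (F → B) → Prop := fun n v => Ex p v ∧
    (∀ a, ‖v a - u a‖ ≤ 8 / 3 * δ * (1 - (1 / 4 : ℝ) ^ n)) ∧
    ∀ a b, ‖dd v a b‖ ≤ δ * (1 / 4 : ℝ) ^ n
  have hQ0 : Q 0 u := by
    refine ⟨⟨h1, hl, hr, hst⟩, ?_, ?_⟩
    · intro a
      simp
    · intro a b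
      simpa [dd] using hd a b
  have hstep : ∀ n, ∀ v : {v : F → B // Q n v}, ∃ v' : {v : F → B // Q (n + 1) v},
      ∀ a, ‖v'.1 a - v.1 a‖ ≤ 2 * δ * (1 / 4 : ℝ) ^ n := by
    intro n v
    obtain ⟨v, hex, hclose, hdef⟩ := v
    have hpow : (0 : ℝ) < (1 / 4 : ℝ) ^ n := by positivity
    have hpow1 : (1 / 4 : ℝ) ^ n ≤ 1 := pow_le_one₀ (by norm_num) (by norm_num)
    have hδn : 0 ≤ δ * (1 / 4 : ℝ) ^ n := by positivity
    have hδn1 : δ * (1 / 4 : ℝ) ^ n ≤ 1 / 100 := by nlinarith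
    have hM : ∀ a, ‖v a‖ ≤ 2 := by
      intro a
      have h2 : ‖v a‖ ≤ ‖v a - u a‖ + ‖u a‖ := by
        have := norm_add_le (v a - u a) (u a)
        simpa using this
      have h3 := hclose a
      have h4 := hn a
      have h5 : 8 / 3 * δ * (1 - (1 / 4 : ℝ) ^ n) ≤ 8 / 3 * δ := by nlinarith
      linarith
    have hc : ∀ a, ‖u2 v a - v a‖ ≤ 2 * (δ * (1 / 4 : ℝ) ^ n) := fun a =>
      norm_u2_sub hex 2 _ (by norm_num) hM hdef a
    refine ⟨⟨u2 v, ex_u2 hp hex, ?_, ?_⟩, ?_⟩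
    · intro a
      have h2 : ‖u2 v a - u a‖ ≤ ‖u2 v a - v a‖ + ‖v a - u a‖ := by
        have := norm_add_le (u2 v a - v a) (v a - u a)
        simpa using this
      have h3 := hc a
      have h4 := hclose a
      have h5 : (1 / 4 : ℝ) ^ (n + 1) = (1 / 4 : ℝ) ^ n / 4 := by rw [pow_succ]; ring
      rw [h5]
      linarith
    · intro a b
      have h2 := defect_u2 hex 2 _ (by norm_num) hδn hM hdef a b
      have h5 : (1 / 4 : ℝ) ^ (n + 1) = (1 / 4 : ℝ) ^ n / 4 := by rw [pow_succ]; ring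
      rw [h5]
      nlinarith
    · intro a
      have h3 := hc a
      simp only
      linarith
  choose nx hnx using hstep
  let s : (n : ℕ) → {v : F → B // Q n v} := fun n => Nat.rec ⟨u, hQ0⟩ (fun n v => nx n v) n
  have hs0 : (s 0).1 = u := rfl
  have hs : ∀ n a, ‖(s (n + 1)).1 a - (s n).1 a‖ ≤ 2 * δ * (1 / 4 : ℝ) ^ n := fun n a =>
    hnx n (s n) a
  have hgeo : ∀ a n, dist ((s n).1 a) ((s (n + 1)).1 a) ≤ 2 * δ * (1 / 4 : ℝ) ^ n := by
    intro a n
    rw [dist_comm, dist_eq_norm]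
    exact hs n a
  have hcau : ∀ a, CauchySeq fun n => (s n).1 a := fun a =>
    cauchySeq_of_le_geometric (1 / 4) (2 * δ) (by norm_num) (hgeo a)
  choose v hv using fun a => cauchySeq_tendsto_of_complete (hcau a)
  have h4 : Tendsto (fun n : ℕ => δ * (1 / 4 : ℝ) ^ n) atTop (𝓝 0) := by
    have := (tendsto_pow_atTop_nhds_zero_of_lt_one (r := (1 / 4 : ℝ)) (by norm_num)
      (by norm_num)).const_mul δ
    simpa using this
  refine ⟨v, ⟨?_, ?_⟩, ?_⟩
  · intro a b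
    have ht : Tendsto (fun n => ‖dd (s n).1 a b‖) atTop (𝓝 ‖v (a * b) - v a * v b‖) :=
      ((hv (a * b)).sub ((hv a).mul (hv b))).norm
    have h0 : Tendsto (fun n => ‖dd (s n).1 a b‖) atTop (𝓝 0) :=
      squeeze_zero (fun _ => norm_nonneg _) (fun n => (s n).2.2.2 a b) h4
    have := tendsto_nhds_unique ht h0
    exact sub_eq_zero.1 (norm_eq_zero.1 this)
  · intro a
    have ht : Tendsto (fun n => (s n).1 a⁻¹) atTop (𝓝 (star (v a))) := by
      have e : (fun n => (s n).1 a⁻¹) = fun n => star ((s n).1 a) := by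
        funext n
        exact (s n).2.1.st a
      rw [e]
      exact (hv a).star
    exact tendsto_nhds_unique (hv a⁻¹) ht
  · intro a
    have h5 := dist_le_of_le_geometric_of_tendsto₀ (1 / 4) (2 * δ) (by norm_num) (hgeo a) (hv a)
    rw [hs0, dist_eq_norm] at h5
    refine h5.trans ?_
    have : (2 * δ) / (1 - 1 / 4) = 8 / 3 * δ := by ring
    rw [this]
    linarith

end Pool.Agent.N38.WS
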